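import Mathlib
import Pool.Agent.Lib.MP_6bc78b_nt.MS.P2.Iface
import Pool.Agent.Lib.MP_6bc78b_nt.MS.P2.H70.Div

/-! Project MS (MP_6bc78b_nt), Part II, module DIV: divisor sums. -/

set_option autoImplicit false

namespace Pool.Agent.Lib.MP_6bc78b_nt.MS.P2.H64

theorem div : DivStatement := by
  refine ⟨fun a b => ?_, fun n _ => ?_, fun k N hN => ?_, fun k N hN => ?_, fun k d N hN => ?_⟩
  · unfold dv
    exact_mod_cast H70.card_divisors_mul_le a b
  · exact H70.div_totient_le n
  · exact H70.sum_card_pow_div_le k N hN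
  · exact H70.sum_card_pow_div_totient_le k N hN
  · have h := H70.sum_card_mul_pow_le d k N hN
    unfold dv
    rw [mul_assoc]
    exact h

end Pool.Agent.Lib.MP_6bc78b_nt.MS.P2.H64
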